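import Pool.Agent.R501.PT5

/-!
# Sign patterns of the Liouville function at positions with permuted digits

The analytic input is the theorem on correlations along such integers of the library (`Pool.Agent.R459.Fams2`, helper459).
-/

set_option autoImplicit false

namespace Pool.Agent.Results.MP_4fffd4_nt.DigitPermutationPositions

open Finset

/-- the Liouville function -/
def lam (n : ℕ) : ℤ := (-1) ^ ArithmeticFunction.cardFactors n

open Classical in
/-- the number of the positive integers `n ≤ X` in `E` with `λ(n + h i) = ε i` for all `i` -/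
noncomputable def occ {s : ℕ} (E : Set ℕ) (X : ℕ) (h : Fin s → ℕ) (ε : Fin s → ℤ) : ℕ :=
  ((Icc 1 X).filter (fun n => n ∈ E ∧ ∀ i, lam (n + h i) = ε i)).card

open Classical in
/-- the number of the positive integers `n ≤ X` in `E` -/
noncomputable def tot (E : Set ℕ) (X : ℕ) : ℕ := ((Icc 1 X).filter (fun n => n ∈ E)).card

/-- For all `l` and all `X ≤ M`: each of the `2 ^ s` sign patterns occurs at the positions `h` for the proportion
`1 / 2 ^ s` of the `n ≤ X` in `E l`, up to an error of at most `δ`. -/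
def Equi (M : ℕ) (δ : ℝ) {s L : ℕ} (E : Fin L → Set ℕ) (h : Fin s → ℕ) : Prop :=
  ∀ l, ∀ X : ℕ, X ≤ M → ∀ ε : Fin s → ℤ, (∀ i, ε i = 1 ∨ ε i = -1) →
    |(occ (E l) X h ε : ℝ) - tot (E l) X / 2 ^ s| ≤ δ

/-- Every sign pattern on the set `S` of positions occurs at some positive integer `n ≤ X` in `E`. -/
def Full (E : Set ℕ) (X : ℕ) (S : Finset ℕ) : Prop :=
  ∀ ε : ℕ → ℤ, (∀ m, ε m = 1 ∨ ε m = -1) → ∃ n, 1 ≤ n ∧ n ≤ X ∧ n ∈ E ∧ ∀ m ∈ S, lam (n + m) = ε m

lemma equi_iff {b B U k s L : ℕ} (e : ℕ) (E : Fin L → Set ℕ) (h : Fin s → ℕ) :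
    Equi (B * b ^ e) ((b : ℝ) ^ e / (k : ℝ) ^ U) E h ↔ Pool.Agent.R501.PT.Equi B U (b ^ e) k E h := by
  unfold Pool.Agent.R501.PT.Equi
  push_cast
  exact Iff.rfl

/-- The integer with the digit `d (σ j)` at the place `j` in base `b`, for `j < k`: the digits `d` in the order `σ`. -/
def V (b : ℕ) {k : ℕ} (d : Fin k → ℕ) (σ : Equiv.Perm (Fin k)) : ℕ := ∑ j : Fin k, d (σ j) * b ^ (j : ℕ)

/-- The `d j`, `j < k`, are digits in base `b`, and no digit is taken at more than `(1 - η) k` places. -/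
structure Spread (b k : ℕ) (η : ℝ) (d : Fin k → ℕ) : Prop where
  lt : ∀ j, d j < b
  few : ∀ a, ((univ.filter fun j => d j = a).card : ℝ) ≤ (1 - η) * k

open Classical in
/-- Let `b ≥ 2`, `B`, `κ`, `A`, `U`, `η > 0` be fixed, let `k` be large and `N = b ^ k`. (1) Let `2 ^ s ≤ k ^ κ`, for
`i < s` let `d i` be arbitrary `k` digits in base `b`, none of them at more than `(1 - η) k` places, let `c i ≤ B N`,
`1 ≤ γ i ≤ B`, and let `E l` be at most `k ^ κ` arbitrary sets of integers. For all `s`-tuples `σ` of permutations of the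
`k` places, up to `(k!) ^ s / k ^ U` of them, all the `2 ^ s` sign patterns of the Liouville function are equidistributed
at the positions `c i + γ i v i`, where `v i` has the digits `d i` in the order `σ i`, along the elements `n ≤ X` of `E l`,
for all `l` and `X ≤ B N`, with an error of at most `N / k ^ U`. (2) If `E` has at least `N / k ^ U` elements up to
`X ≤ B N`, and `c ≤ B N`, `1 ≤ γ ≤ B`, there is a set `S` of at least `A log k` integers of the form `c + γ v`, where `v`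
is a rearrangement of the given digits `d`, such that all sign patterns on `S` occur at some `n ≤ X` in `E`. -/
theorem result (b B κ A U : ℕ) (hb : 2 ≤ b) (η : ℝ) (hη : 0 < η) : ∃ k₀ : ℕ, ∀ k : ℕ, k₀ ≤ k →
    (∀ s L : ℕ, 2 ^ s ≤ k ^ κ → L ≤ k ^ κ → ∀ d : Fin s → Fin k → ℕ, (∀ i, Spread b k η (d i)) →
      ∀ c γ : Fin s → ℕ, (∀ i, c i ≤ B * b ^ k) → (∀ i, 1 ≤ γ i ∧ γ i ≤ B) → ∀ E : Fin L → Set ℕ,
      (((univ : Finset (Fin s → Equiv.Perm (Fin k))).filter fun σ =>
        ¬ Equi (B * b ^ k) ((b : ℝ) ^ k / (k : ℝ) ^ U) E (fun i => c i + γ i * V b (d i) (σ i))).card : ℝ) ≤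
      (k.factorial : ℝ) ^ s / (k : ℝ) ^ U) ∧
    (∀ d : Fin k → ℕ, Spread b k η d → ∀ c γ : ℕ, c ≤ B * b ^ k → 1 ≤ γ → γ ≤ B → ∀ E : Set ℕ,
      ∀ X : ℕ, X ≤ B * b ^ k → (b : ℝ) ^ k / (k : ℝ) ^ U ≤ tot E X →
      ∃ S : Finset ℕ, (A : ℝ) * Real.log k ≤ S.card ∧
        (∀ m ∈ S, ∃ σ : Equiv.Perm (Fin k), m = c + γ * V b d σ) ∧ Full E X S) := by
  obtain ⟨k1, h1⟩ := Pool.Agent.R501.PT.perm_equi b B κ U hb η hη
  obtain ⟨k2, h2⟩ := Pool.Agent.R501.PT.perm_full b B A U hb η hη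
  refine ⟨k1 + k2, fun k hk => ⟨fun s L hs hL d hd c γ hc hγ E => ?_, fun d hd c γ hc hγ1 hγ2 E X hX hE => ?_⟩⟩
  · have h3 := h1 k (by omega) s L hs hL d (fun i => ⟨(hd i).lt, (hd i).few⟩) c γ hc hγ E
    rw [Pool.Agent.R459.Fams.count_eq] at h3
    simp only [← equi_iff] at h3
    push_cast at h3
    exact h3
  · obtain ⟨S, g1, g2, g3⟩ := h2 k (by omega) d ⟨hd.lt, hd.few⟩ c γ hc hγ1 hγ2 E X hX (by
      push_cast
      exact hE)
    exact ⟨S, g1, fun m hm => by obtain ⟨v, h⟩ := g2 m hm; exact ⟨v, h.symm⟩, g3⟩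

end Pool.Agent.Results.MP_4fffd4_nt.DigitPermutationPositions
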