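import Pool.Agent.R501.PT5

/-!
# Sign patterns of the Liouville function at palindromic positions

The analytic input is the theorem on correlations along palindromes of the library (`Pool.Agent.R459.Fams2`, helper459).
-/

set_option autoImplicit false

namespace Pool.Agent.Results.MP_4fffd4_nt.PalindromicPositions

open Finset

/-- the Liouville function -/
def lam (n : ℕ) : ℤ := (-1) ^ ArithmeticFunction.cardFactors n

open Classical in
/-- the number of the positive integers `n ≤ X` in `E` with `λ(n + h i) = ε i` for all `i` -/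
noncomputable def occ {s : ℕ} (E : Set ℕ) (X : ℕ) (h : Fin s → ℕ) (ε : Fin s → ℤ) : ℕ :=
  ((Icc 1 X).filter (fun n => n ∈ E ∧ ∀ i, lam (n + h i) = ε i)).card

open Classical in
/-- the number of the positive integers `n ≤ X` in `E` -/
noncomputable def tot (E : Set ℕ) (X : ℕ) : ℕ := ((Icc 1 X).filter (fun n => n ∈ E)).card

/-- For all `l` and all `X ≤ M`: each of the `2 ^ s` sign patterns occurs at the positions `h` for the proportion
`1 / 2 ^ s` of the `n ≤ X` in `E l`, up to an error of at most `δ`. -/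
def Equi (M : ℕ) (δ : ℝ) {s L : ℕ} (E : Fin L → Set ℕ) (h : Fin s → ℕ) : Prop :=
  ∀ l, ∀ X : ℕ, X ≤ M → ∀ ε : Fin s → ℤ, (∀ i, ε i = 1 ∨ ε i = -1) →
    |(occ (E l) X h ε : ℝ) - tot (E l) X / 2 ^ s| ≤ δ

/-- Every sign pattern on the set `S` of positions occurs at some positive integer `n ≤ X` in `E`. -/
def Full (E : Set ℕ) (X : ℕ) (S : Finset ℕ) : Prop :=
  ∀ ε : ℕ → ℤ, (∀ m, ε m = 1 ∨ ε m = -1) → ∃ n, 1 ≤ n ∧ n ≤ X ∧ n ∈ E ∧ ∀ m ∈ S, lam (n + m) = ε m

lemma equi_iff {b B U k s L : ℕ} (e : ℕ) (E : Fin L → Set ℕ) (h : Fin s → ℕ) :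
    Equi (B * b ^ e) ((b : ℝ) ^ e / (k : ℝ) ^ U) E h ↔ Pool.Agent.R501.PT.Equi B U (b ^ e) k E h := by
  unfold Pool.Agent.R501.PT.Equi
  push_cast
  exact Iff.rfl

/-- The palindromes with exactly `k` digits in base `b`: the integers `b ^ (k - 1) ≤ v < b ^ k` whose digits at the places
`j` and `k - 1 - j` are equal for all `j < k`. -/
def palindromes (b k : ℕ) : Finset ℕ :=
  (range (b ^ k)).filter fun v => b ^ (k - 1) ≤ v ∧ ∀ j < k, v / b ^ j % b = v / b ^ (k - 1 - j) % b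

lemma mem_pal (b k v : ℕ) : v ∈ palindromes b k ↔ Pool.Agent.TH872.Tr.IsPalindrome b k v := by
  unfold palindromes Pool.Agent.TH872.Tr.IsPalindrome
  rw [mem_filter, mem_range]
  constructor
  · rintro ⟨g1, g2, g3⟩
    exact ⟨g2, g1, g3⟩
  · rintro ⟨g1, g2, g3⟩
    exact ⟨g2, g1, g3⟩

open Classical in
/-- Let `b ≥ 2`, `B`, `κ`, `A`, `U` be fixed, let `k` be large and `N = b ^ k`. (1) Let `2 ^ s ≤ k ^ κ`, `c i ≤ B N`,
`1 ≤ γ i ≤ B`, and let `E l` be at most `k ^ κ` arbitrary sets of integers. For all `s`-tuples `v` of palindromes with `k`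
digits in base `b`, up to a proportion of `1 / k ^ U` of them, all the `2 ^ s` sign patterns of the Liouville function are
equidistributed at the positions `c i + γ i v i` along the elements `n ≤ X` of `E l`, for all `l` and `X ≤ B N`, with an
error of at most `N / k ^ U`. (2) If `E` has at least `N / k ^ U` elements up to `X ≤ B N`, and `c ≤ B N`, `1 ≤ γ ≤ B`,
there is a set `S` of at least `A log k` integers of the form `c + γ v`, `v` a palindrome with `k` digits, such that all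
sign patterns on `S` occur at some `n ≤ X` in `E`. -/
theorem result (b B κ A U : ℕ) (hb : 2 ≤ b) : ∃ k₀ : ℕ, ∀ k : ℕ, k₀ ≤ k →
    (∀ s L : ℕ, 2 ^ s ≤ k ^ κ → L ≤ k ^ κ → ∀ c γ : Fin s → ℕ, (∀ i, c i ≤ B * b ^ k) → (∀ i, 1 ≤ γ i ∧ γ i ≤ B) →
      ∀ E : Fin L → Set ℕ,
      (((Fintype.piFinset fun _ : Fin s => palindromes b k).filter fun v =>
        ¬ Equi (B * b ^ k) ((b : ℝ) ^ k / (k : ℝ) ^ U) E (fun i => c i + γ i * v i)).card : ℝ) ≤
      ((palindromes b k).card : ℝ) ^ s / (k : ℝ) ^ U) ∧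
    (∀ c γ : ℕ, c ≤ B * b ^ k → 1 ≤ γ → γ ≤ B → ∀ E : Set ℕ, ∀ X : ℕ, X ≤ B * b ^ k →
      (b : ℝ) ^ k / (k : ℝ) ^ U ≤ tot E X →
      ∃ S : Finset ℕ, (A : ℝ) * Real.log k ≤ S.card ∧ (∀ m ∈ S, ∃ v ∈ palindromes b k, m = c + γ * v) ∧ Full E X S) := by
  obtain ⟨k1, h1⟩ := Pool.Agent.R501.PT.pal_equi b B κ U hb
  obtain ⟨k2, h2⟩ := Pool.Agent.R501.PT.pal_full b B A U hb
  refine ⟨k1 + k2, fun k hk => ⟨fun s L hs hL c γ hc hγ E => ?_, fun c γ hc hγ1 hγ2 E X hX hE => ?_⟩⟩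
  · have h3 := h1 k (by omega) s L hs hL (palindromes b k) (mem_pal b k) c γ hc hγ E
    rw [Pool.Agent.R459.Fams.count_eq, Fintype.card_piFinset, prod_const, card_univ, Fintype.card_fin] at h3
    simp only [← equi_iff] at h3
    push_cast at h3
    exact h3
  · obtain ⟨S, g1, g2, g3⟩ := h2 k (by omega) (palindromes b k) (mem_pal b k) c γ hc hγ1 hγ2 E X hX (by
      push_cast
      exact hE)
    exact ⟨S, g1, fun m hm => by obtain ⟨v, hv, h⟩ := g2 m hm; exact ⟨v, hv, h.symm⟩, g3⟩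

end Pool.Agent.Results.MP_4fffd4_nt.PalindromicPositions
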