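import Pool.Agent.R501.PT6

/-!
# Sign patterns of the Liouville function at the values of sums of independent random integers, and at arbitrary positions
modified by few elements of an arbitrary set

The analytic input is in the starting library (`Pool.Agent.Y885`, theorems `rs_kptq` and `las_kptq`).
-/

set_option autoImplicit false

namespace Pool.Agent.Results.MP_4fffd4_nt.RandomSumPositions

open Finset

/-- the Liouville function -/
def lam (n : ℕ) : ℤ := (-1) ^ ArithmeticFunction.cardFactors n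

open Classical in
/-- the number of the positive integers `n ≤ X` in `E` with `λ(n + h i) = ε i` for all `i` -/
noncomputable def occ {s : ℕ} (E : Set ℕ) (X : ℕ) (h : Fin s → ℕ) (ε : Fin s → ℤ) : ℕ :=
  ((Icc 1 X).filter (fun n => n ∈ E ∧ ∀ i, lam (n + h i) = ε i)).card

open Classical in
/-- the number of the positive integers `n ≤ X` in `E` -/
noncomputable def tot (E : Set ℕ) (X : ℕ) : ℕ := ((Icc 1 X).filter (fun n => n ∈ E)).card

/-- For all `l` and all `X ≤ M`: each of the `2 ^ s` sign patterns occurs at the positions `h` for the proportion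
`1 / 2 ^ s` of the `n ≤ X` in `E l`, up to an error of at most `δ`. -/
def Equi (M : ℕ) (δ : ℝ) {s L : ℕ} (E : Fin L → Set ℕ) (h : Fin s → ℕ) : Prop :=
  ∀ l, ∀ X : ℕ, X ≤ M → ∀ ε : Fin s → ℤ, (∀ i, ε i = 1 ∨ ε i = -1) →
    |(occ (E l) X h ε : ℝ) - tot (E l) X / 2 ^ s| ≤ δ

/-- The set `J` of scales below `k` is rich: it contains more than three fifths of all the scales, more than one half
of the `m` lowest scales, and a positive proportion of the `m` highest scales (the last two conditions are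
void for `m ≤ D log k`). -/
structure Rich (δ : ℝ) (D k : ℕ) (J : Finset ℕ) : Prop where
  lt : ∀ j ∈ J, j < k
  all : (3 / 5 + δ) * k ≤ (J.card : ℝ)
  low : ∀ m ≤ k, (1 / 2 + δ) * m ≤ ((J.filter fun j => j < m).card : ℝ) + D * Real.log k
  high : ∀ m ≤ k, δ * m ≤ ((J.filter fun j => k - m ≤ j).card : ℝ) + D * Real.log k

open Classical in
/-- The probability of the event `Ev` if the `x i j`, for `i < s` and `j < k`, are independent random integers, where
`x i j` takes its values in the finite set `σ i j`, and the value `v` with the probability `p i j v`. -/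
noncomputable def Prob (s k : ℕ) (σ : Fin s → ℕ → Finset ℤ) (p : Fin s → ℕ → ℤ → ℝ) (Ev : (Fin s → Fin k → ℤ) → Prop) : ℝ :=
  ∑ x ∈ Fintype.piFinset (fun i : Fin s => Fintype.piFinset (fun j : Fin k => σ i j)),
    if Ev x then ∏ i, ∏ j : Fin k, p i j (x i j) else 0

/-- (1) Let `b ≥ 2`, `B ≥ 1`, `D`, `κ`, `U`, `η > 0` and `δ > 0` be fixed, let `k` be large, `2 ^ s ≤ k ^ κ`, and let
`J 1, ..., J s` be arbitrary rich sets of scales below `k`. Let the `x i j` (`i < s`, `j < k`) be arbitrary independent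
random integers with `|x i j| ≤ B b ^ j` such that, for all `j` in `J i`, no interval of the length `b ^ j / B` contains
`x i j` with a probability larger than `1 - η` (nothing is assumed for the other `j`: these `x i j` may be constants).
Let `|c i| ≤ B b ^ k`, and let `E l` be at most `k ^ κ` arbitrary sets of integers. Then, with a probability of at least
`1 - 1 / k ^ U`, the integers `h i = c i + ∑ j, x i j` are not all nonnegative, or all the `2 ^ s` sign patterns of the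
Liouville function are equidistributed at the positions `h i` along the elements `n ≤ X` of `E l`, for all `l` and all
`X ≤ B b ^ k`, with an error of at most `b ^ k / k ^ U`.

(2) Let `l ≥ 2`, `κ` and `U` be given. There is a constant `C` such that for all `H`, `B` and all large `N` the following
holds. Let `2 ^ s ≤ (log N) ^ κ`, let `A 1, ..., A s` be arbitrary sets of integers which contain an element of every
interval `[x, l x]`, `x ≥ 1`, let `h i ≤ B N` be ARBITRARY positions, and let `E m` be at most `(log N) ^ κ` arbitrary sets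
of integers. Then there are sets `S i` of at most `C (log log N) ^ 2` elements of `A i`, all of them `≥ (log N) ^ H` and
`≤ N / (log N) ^ H`, such that all the `2 ^ s` sign patterns of the Liouville function are equidistributed at the positions
`h i + ∑ a ∈ S i, a` along the elements `n ≤ X` of `E m`, for all `m` and `X ≤ B N`, with an error `≤ N / (log N) ^ U`. -/
theorem result :
    (∀ b B D κ U : ℕ, 2 ≤ b → 1 ≤ B → ∀ η δ : ℝ, 0 < η → 0 < δ →
      ∃ k₀ : ℕ, ∀ k : ℕ, k₀ ≤ k → ∀ s : ℕ, 2 ^ s ≤ k ^ κ → ∀ J : Fin s → Finset ℕ, (∀ i, Rich δ D k (J i)) →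
      ∀ (σ : Fin s → ℕ → Finset ℤ) (p : Fin s → ℕ → ℤ → ℝ),
      (∀ i, ∀ j < k, (∀ x ∈ σ i j, 0 ≤ p i j x ∧ |x| ≤ (B : ℤ) * (b : ℤ) ^ j) ∧ ∑ x ∈ σ i j, p i j x = 1) →
      (∀ i, ∀ j ∈ J i, ∀ y : ℤ, ∑ x ∈ (σ i j).filter (fun x => y ≤ x ∧ (B : ℤ) * (x - y) ≤ (b : ℤ) ^ j), p i j x ≤ 1 - η) →
      ∀ c : Fin s → ℤ, (∀ i, |c i| ≤ (B : ℤ) * (b : ℤ) ^ k) → ∀ L : ℕ, L ≤ k ^ κ → ∀ E : Fin L → Set ℕ,
        Prob s k σ p (fun x => (∀ i, 0 ≤ c i + ∑ j, x i j) ∧
          ¬ Equi (B * b ^ k) ((b : ℝ) ^ k / (k : ℝ) ^ U) E (fun i => (c i + ∑ j, x i j).toNat)) ≤ 1 / (k : ℝ) ^ U) ∧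
    (∀ l κ U : ℕ, 2 ≤ l → ∃ C : ℝ, ∀ H B : ℕ, ∃ N₀ : ℕ, ∀ N : ℕ, N₀ ≤ N → ∀ s : ℕ, (2 : ℝ) ^ s ≤ Real.log N ^ κ →
      ∀ A : Fin s → Set ℕ, (∀ i, ∀ x : ℕ, 1 ≤ x → ∃ a ∈ A i, x ≤ a ∧ a ≤ l * x) →
      ∀ h : Fin s → ℕ, (∀ i, h i ≤ B * N) → ∀ L : ℕ, (L : ℝ) ≤ Real.log N ^ κ → ∀ E : Fin L → Set ℕ,
      ∃ S : Fin s → Finset ℕ, (∀ i, ∀ a ∈ S i, a ∈ A i ∧ Real.log N ^ H ≤ a ∧ (a : ℝ) ≤ N / Real.log N ^ H) ∧
        (∀ i, ((S i).card : ℝ) ≤ C * Real.log (Real.log N) ^ 2) ∧
        Equi (B * N) (N / Real.log N ^ U) E (fun i => h i + ∑ a ∈ S i, a)) := by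
  classical
  refine ⟨fun b B D κ U hb hB η δ hη hδ => ?_, fun l κ U hl => ?_⟩
  · obtain ⟨k₀, h0⟩ := Pool.Agent.Y885.rs_kptq b B D κ U hb hB η δ hη hδ Pool.Agent.Y885.laR Pool.Agent.Y885.fine_lam
    refine ⟨k₀ + 1, fun k hk s hs J hJ σ p hσ hp c hc L hL E => ?_⟩
    obtain ⟨g, hg, hg', hg1⟩ := Pool.Agent.R501.PT.ind_exists E
    have hk1 : (1 : ℝ) ≤ (k : ℝ) ^ κ := one_le_pow₀ (by exact_mod_cast (by omega : 1 ≤ k))
    have h1 := h0 k (by omega) s hs J σ p c (fun i => ⟨(hJ i).lt, (hJ i).low, (hJ i).high, (hJ i).all⟩) hσ hp hc L hL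
      (fun _ => 1) g (fun _ => le_rfl) (fun l n _ _ => (hg1 l n).trans hk1)
      (fun x => (∀ i, 0 ≤ c i + ∑ j, x i j) ∧
        ¬ Equi (B * b ^ k) ((b : ℝ) ^ k / (k : ℝ) ^ U) E (fun i => (c i + ∑ j, x i j).toNat))
      (Classical.decPred _) (fun x hx hall => hx.2 ?_)
    · refine le_trans (le_of_eq ?_) h1
      unfold Prob
      apply sum_congr rfl
      intro x _
      split_ifs <;> rfl
    · refine Pool.Agent.R501.PT.equiR_of_sums (by positivity) E g hg hg' _
        (fun n => ((Pool.Agent.Y885.laR n : ℝ) : ℂ)) (fun n hn => Pool.Agent.R501.PT.laR_eq n hn) ?_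
      intro l I hI X hX
      have h5 := hall l I hI 1 le_rfl (Nat.one_le_pow _ _ (by omega)) 0 X (fun i _ => by rw [one_mul]; exact hX)
      have e1 : (Icc 1 X).filter (fun n => n ≡ 0 [MOD 1]) = Icc 1 X := filter_true_of_mem fun n _ => Nat.modEq_one
      rw [e1] at h5
      refine le_trans (le_of_eq ?_) h5
      congr 1
      apply sum_congr rfl
      intro t ht
      have ht1 : 1 ≤ t := (mem_Icc.1 ht).1
      congr 1
      apply prod_congr rfl
      intro i _
      have h8 := hx.1 i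
      obtain ⟨a, ha⟩ : ∃ a : ℤ, a = c i + ∑ j, x i j := ⟨_, rfl⟩
      rw [← ha] at h8 ⊢
      unfold Pool.Agent.H373R2.T7.exI
      rw [if_pos (by omega)]
      have e2 : (((1 * t : ℕ) : ℤ) + a).toNat = t + a.toNat := by omega
      rw [e2]
  · obtain ⟨C, hC⟩ := Pool.Agent.Y885.las_kptq l 1 κ U hl le_rfl Pool.Agent.Y885.laR Pool.Agent.Y885.fine_lam
    refine ⟨C, fun H B => ?_⟩
    obtain ⟨N₀, h0⟩ := hC H B
    obtain ⟨N1, h1⟩ := Pool.Agent.H373R2.T7.ev_L' 1
    refine ⟨N₀ + N1, fun N hN s hs A hA h hh L hL E => ?_⟩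
    have hL1 := h1 N (by omega)
    obtain ⟨g, hg, hg', hg1⟩ := Pool.Agent.R501.PT.ind_exists E
    have hk1 : (1 : ℝ) ≤ Real.log N ^ κ := one_le_pow₀ hL1
    obtain ⟨S, s1, s2, -, s4⟩ := h0 s A hA N (by omega) hs h hh L hL (fun _ => 1) g (fun _ => le_rfl)
      (fun l n _ _ => (hg1 l n).trans hk1)
    refine ⟨S, s1, s2, ?_⟩
    refine Pool.Agent.R501.PT.equiR_of_sums (by positivity) E g hg hg' _
      (fun n => ((Pool.Agent.Y885.laR n : ℝ) : ℂ)) (fun n hn => Pool.Agent.R501.PT.laR_eq n hn) ?_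
    intro m I hI X hX
    have h5 := s4 m I hI 1 le_rfl (by rw [Nat.cast_one]; exact hk1) 0 X (fun i _ => by rw [one_mul]; exact hX)
    have e1 : (Icc 1 X).filter (fun n => n ≡ 0 [MOD 1]) = Icc 1 X := filter_true_of_mem fun n _ => Nat.modEq_one
    rw [e1] at h5
    refine le_trans (le_of_eq ?_) h5
    congr 1
    apply sum_congr rfl
    intro t ht
    congr 1
    apply prod_congr rfl
    intro i _
    rw [one_mul]

end Pool.Agent.Results.MP_4fffd4_nt.RandomSumPositions
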