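import Pool.Agent.R501.PT4

/-!
# Sets of positions at which all sign patterns of the Liouville function occur

For almost all tuples of `s ≤ A log log N` positions up to `N`, or in thin families, all the `2 ^ s` sign patterns of the
Liouville function are equidistributed, even along arbitrary sets of integers; in particular the sign patterns of length
`N` shatter sets of size `A log log N`.
-/

set_option autoImplicit false

namespace Pool.Agent.Results.MP_4fffd4_nt.ShatteredPositions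

open Finset

/-- the Liouville function -/
def lam (n : ℕ) : ℤ := (-1) ^ ArithmeticFunction.cardFactors n

open Classical in
/-- the number of the positive integers `n ≤ X` in `E` with `λ(n + h i) = ε i` for all `i` -/
noncomputable def occ {s : ℕ} (E : Set ℕ) (X : ℕ) (h : Fin s → ℕ) (ε : Fin s → ℤ) : ℕ :=
  ((Icc 1 X).filter (fun n => n ∈ E ∧ ∀ i, lam (n + h i) = ε i)).card

open Classical in
/-- the number of the positive integers `n ≤ X` in `E` -/
noncomputable def tot (E : Set ℕ) (X : ℕ) : ℕ := ((Icc 1 X).filter (fun n => n ∈ E)).card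

/-- For all `l` and all `X ≤ M`: each of the `2 ^ s` sign patterns occurs at the positions `h` for the proportion
`1 / 2 ^ s` of the `n ≤ X` in `E l`, up to an error of at most `δ`. -/
def Equi (M : ℕ) (δ : ℝ) {s L : ℕ} (E : Fin L → Set ℕ) (h : Fin s → ℕ) : Prop :=
  ∀ l, ∀ X : ℕ, X ≤ M → ∀ ε : Fin s → ℤ, (∀ i, ε i = 1 ∨ ε i = -1) →
    |(occ (E l) X h ε : ℝ) - tot (E l) X / 2 ^ s| ≤ δ

/-- Every sign pattern on the set `S` of positions occurs at some positive integer `n ≤ X` in `E`. -/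
def Full (E : Set ℕ) (X : ℕ) (S : Finset ℕ) : Prop :=
  ∀ ε : ℕ → ℤ, (∀ m, ε m = 1 ∨ ε m = -1) → ∃ n, 1 ≤ n ∧ n ≤ X ∧ n ∈ E ∧ ∀ m ∈ S, lam (n + m) = ε m

/-- The additive energy of order `p` of `b 1, ..., b x`: the number of solutions of
`b (m 1) + ... + b (m p) = b (m' 1) + ... + b (m' p)` with all `m i`, `m' i` in `{1, ..., x}`. -/
def energy (p x : ℕ) (b : ℕ → ℕ) : ℕ :=
  (((Fintype.piFinset fun _ : Fin p => Icc 1 x) ×ˢ (Fintype.piFinset fun _ : Fin p => Icc 1 x)).filter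
    (fun q => ∑ i, b (q.1 i) = ∑ i, b (q.2 i))).card

lemma energy_eq (p x : ℕ) (b : ℕ → ℕ) : energy p x b = Pool.Agent.H373R2.T7.energy p x (fun m => (b m : ℤ)) := by
  unfold energy Pool.Agent.H373R2.T7.energy
  congr 1
  apply filter_congr
  intro q _
  show _ ↔ ∑ i, ((b (q.1 i) : ℕ) : ℤ) = ∑ i, ((b (q.2 i) : ℕ) : ℤ)
  norm_cast

open Classical in
/-- **Equidistribution of the sign patterns of the Liouville function at almost all tuples of positions.**
(1) For all `A`, `U` and `N ≥ N₀`, `s ≤ A log log N`, `L ≤ (log N) ^ A` and arbitrary sets `E 1, ..., E L`: for all but at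
most `N ^ s / (log N) ^ U` of the `s`-tuples `h` of positive integers `h i ≤ N` all the `2 ^ s` sign patterns are
equidistributed at the positions `h` along the elements `n ≤ X` of each `E l`, `X ≤ N`, with error `N / (log N) ^ U`.
(2) If `N ≥ N₀(A, U)` and `E` has at least `N / (log N) ^ U` elements up to `N`, there is a set `S` of positions up to `N`
with at least `A log log N` elements, such that all sign patterns on `S` occur at some `n ≤ N` in `E`.
(3), (4) The same, if the positions are members `b i m`, `m ≤ x i`, of arbitrary families of integers up to `B N` which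
have small additive energy of some bounded order. -/
theorem result :
    (∀ A U : ℕ, ∃ N₀ : ℕ, ∀ N : ℕ, N₀ ≤ N → ∀ s L : ℕ, (s : ℝ) ≤ A * Real.log (Real.log N) →
      (L : ℝ) ≤ Real.log N ^ A → ∀ E : Fin L → Set ℕ,
      (((Fintype.piFinset fun _ : Fin s => Icc 1 N).filter
        (fun h => ¬ Equi N (N / Real.log N ^ U) E h)).card : ℝ) ≤ (N : ℝ) ^ s / Real.log N ^ U) ∧
    (∀ A U : ℕ, ∃ N₀ : ℕ, ∀ N : ℕ, N₀ ≤ N → ∀ E : Set ℕ, (N : ℝ) / Real.log N ^ U ≤ tot E N →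
      ∃ S : Finset ℕ, S ⊆ Icc 1 N ∧ (A : ℝ) * Real.log (Real.log N) ≤ S.card ∧ Full E N S) ∧
    (∀ B C A U P : ℕ, ∃ N₀ : ℕ, ∀ N : ℕ, N₀ ≤ N → ∀ s L : ℕ, (s : ℝ) ≤ A * Real.log (Real.log N) →
      (L : ℝ) ≤ Real.log N ^ A → ∀ (x p : Fin s → ℕ) (b : Fin s → ℕ → ℕ), (∀ i, p i ≤ P) →
      (∀ i, ∀ m ∈ Icc 1 (x i), b i m ≤ B * N) →
      (∀ i, (energy (p i) (x i) (b i) : ℝ) * N ≤ Real.log N ^ C * (x i : ℝ) ^ (2 * p i)) → ∀ E : Fin L → Set ℕ,
      (((Fintype.piFinset fun i : Fin s => Icc 1 (x i)).filter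
        (fun m => ¬ Equi (B * N) (N / Real.log N ^ U) E (fun i => b i (m i)))).card : ℝ) ≤
          (∏ i, (x i : ℝ)) / Real.log N ^ U) ∧
    (∀ B C A U P : ℕ, ∃ N₀ : ℕ, ∀ N : ℕ, N₀ ≤ N → ∀ (x p : ℕ) (b : ℕ → ℕ), 1 ≤ x → p ≤ P →
      (∀ m ∈ Icc 1 x, b m ≤ B * N) → (energy p x b : ℝ) * N ≤ Real.log N ^ C * (x : ℝ) ^ (2 * p) →
      ∀ E : Set ℕ, ∀ X : ℕ, X ≤ B * N → (N : ℝ) / Real.log N ^ U ≤ tot E X →
      ∃ S : Finset ℕ, S ⊆ (Icc 1 x).image b ∧ (A : ℝ) * Real.log (Real.log N) ≤ S.card ∧ Full E X S) := by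
  have h3 : ∀ B C A U P : ℕ, ∃ N₀ : ℕ, ∀ N : ℕ, N₀ ≤ N → ∀ s L : ℕ, (s : ℝ) ≤ A * Real.log (Real.log N) →
      (L : ℝ) ≤ Real.log N ^ A → ∀ (x p : Fin s → ℕ) (b : Fin s → ℕ → ℕ), (∀ i, p i ≤ P) →
      (∀ i, ∀ m ∈ Icc 1 (x i), b i m ≤ B * N) →
      (∀ i, (energy (p i) (x i) (b i) : ℝ) * N ≤ Real.log N ^ C * (x i : ℝ) ^ (2 * p i)) → ∀ E : Fin L → Set ℕ,
      (((Fintype.piFinset fun i : Fin s => Icc 1 (x i)).filter
        (fun m => ¬ Equi (B * N) (N / Real.log N ^ U) E (fun i => b i (m i)))).card : ℝ) ≤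
          (∏ i, (x i : ℝ)) / Real.log N ^ U := by
    intro B C A U P
    obtain ⟨N₀, h⟩ := Pool.Agent.R501.PT.thin_log B C A U P
    refine ⟨N₀, fun N hN s L hs hL x p b hp hb hE E => ?_⟩
    have h1 := h N hN s L hs hL x p b hp hb (fun i => by rw [← energy_eq]; exact hE i) E
    rw [Pool.Agent.R459.Fams.count_eq] at h1
    exact h1
  have h4 : ∀ B C A U P : ℕ, ∃ N₀ : ℕ, ∀ N : ℕ, N₀ ≤ N → ∀ (x p : ℕ) (b : ℕ → ℕ), 1 ≤ x → p ≤ P →
      (∀ m ∈ Icc 1 x, b m ≤ B * N) → (energy p x b : ℝ) * N ≤ Real.log N ^ C * (x : ℝ) ^ (2 * p) →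
      ∀ E : Set ℕ, ∀ X : ℕ, X ≤ B * N → (N : ℝ) / Real.log N ^ U ≤ tot E X →
      ∃ S : Finset ℕ, S ⊆ (Icc 1 x).image b ∧ (A : ℝ) * Real.log (Real.log N) ≤ S.card ∧ Full E X S := by
    intro B C A U P
    obtain ⟨N₀, h⟩ := Pool.Agent.R501.PT.thin_full B C A U P
    refine ⟨N₀, fun N hN x p b hx hp hb hE E X hX hEX => ?_⟩
    obtain ⟨S, h5, h6, h7⟩ := h N hN x p b hx hp hb (by rw [← energy_eq]; exact hE) E X hX hEX
    exact ⟨S, fun m hm => mem_image.2 (h6 m hm), h5, h7⟩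
  have hen : ∀ N : ℕ, energy 1 N (fun m => m) ≤ N := fun N => by
    rw [energy_eq]
    exact Pool.Agent.R501.PT.energy_id N
  have hen2 : ∀ N : ℕ, (energy 1 N (fun m => m) : ℝ) * N ≤ Real.log N ^ 0 * (N : ℝ) ^ (2 * 1) := fun N => by
    have : (energy 1 N (fun m => m) : ℝ) ≤ N := by exact_mod_cast hen N
    rw [pow_zero, one_mul, mul_one, pow_two]
    exact mul_le_mul_of_nonneg_right this (Nat.cast_nonneg N)
  refine ⟨fun A U => ?_, fun A U => ?_, h3, h4⟩
  · obtain ⟨N₀, h⟩ := h3 1 0 A U 1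
    refine ⟨N₀, fun N hN s L hs hL E => ?_⟩
    have h5 := h N hN s L hs hL (fun _ => N) (fun _ => 1) (fun _ m => m) (fun _ => le_rfl)
      (fun _ m hm => by rw [one_mul]; exact (mem_Icc.1 hm).2) (fun _ => hen2 N) E
    rw [one_mul, prod_const, card_univ, Fintype.card_fin] at h5
    exact h5
  · obtain ⟨N₀, h⟩ := h4 1 0 A U 1
    refine ⟨N₀ + 1, fun N hN E hE => ?_⟩
    obtain ⟨S, h5, h6, h7⟩ := h N (by omega) N 1 (fun m => m) (by omega) le_rfl
      (fun m hm => by rw [one_mul]; exact (mem_Icc.1 hm).2) (hen2 N) E N (by rw [one_mul]) hE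
    refine ⟨S, ?_, h6, h7⟩
    rw [image_id'] at h5
    exact h5

end Pool.Agent.Results.MP_4fffd4_nt.ShatteredPositions
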